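import Pool.Agent.Lib.MP_3755f6_co.ExtMain
import Pool.Agent.Lib.MP_3755f6_co.MW7

namespace Pool.Agent.Results.MP_3755f6_co.Extended

open Pool.Agent.Lib.MP_3755f6_co

/-- Q2: for every `d ≥ 2` and every vertex `o` of `ℤ^d` the matching measure exists, and it has
extended states at `0` if and only if `d ≥ 3`. -/
theorem result (d : ℕ) (hd : 2 ≤ d) (o : Fin d → ℤ) :
    (∃ ν, IsMatchingMeasure (lattice d) o ν) ∧
      ∀ ν, IsMatchingMeasure (lattice d) o ν → (HasExtendedStates ν 0 ↔ 3 ≤ d) := by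
  refine ⟨(mm_lattice o).1, fun ν hν => ⟨fun h => ?_, fun h => ext_three h o hν⟩⟩
  by_contra hc
  obtain rfl : d = 2 := by omega
  refine h (ext_two_of (by norm_num) (fun ε hε => ?_) o hν)
  obtain ⟨t0, h0, L0, h1⟩ := mw_two hε
  exact ⟨t0, h0, fun t a b => ⟨L0, h1 t a b⟩⟩

end Pool.Agent.Results.MP_3755f6_co.Extended
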