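import Pool.Agent.Lib.MP_3755f6_co.Main

namespace Pool.Agent.Results.MP_3755f6_co.Neutral

open Pool.Agent.Lib.MP_3755f6_co

/-- Q1: for every `d ≥ 2`, every vertex `o` of `ℤ^d` is `0`-neutral. -/
theorem result (d : ℕ) (hd : 2 ≤ d) (o : Fin d → ℤ) : IsNeutral (lattice d) 0 o :=
  neutral hd o

end Pool.Agent.Results.MP_3755f6_co.Neutral
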